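import Pool.Agent.helper1.FI3.SpecH

/-!
# Project fi3 (MP_baa4d7_al), block H3, row QNW
-/

set_option autoImplicit false

namespace Pool.Agent.FI3

open Pool.Agent.helper58.DC Pool.Agent.DI Pool.Agent.GR Pool.Agent.OB Pool.Agent.DR Pool.Agent.FI

theorem QNW (hQRS : QRS_stmt) (hQCE : QCE_stmt) (hEVM : EVM_stmt) (hIDM : IDM_stmt)
    (hB2 : B2_stmt) : QNW_stmt := by
  intro G _ _ M L θ u hu w hw j hj hjh c hc φ hφ
  classical
  have : Fintype G := Fintype.ofFinite G
  have huK : u ∈ Cz L u := ⟨hu, Subgroup.mem_centralizer_singleton_iff.mpr rfl⟩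
  have hKL : Cz L u ≤ L := fun k hk => hk.1
  have hCen : Cen (Cz L u) u := by
    intro t ht
    have h1 : t ∈ Subgroup.centralizer {u} := ht.2
    rw [Subgroup.mem_centralizer_singleton_iff] at h1
    exact h1
  set K := Cz L u with hK
  have hres := (hQRS G L K hKL φ hφ).2
  set S := (hB2 G K).1.toFinset with hS
  have hSm : ∀ ψ, ψ ∈ S ↔ ψ ∈ IrrOn K := fun ψ => Set.Finite.mem_toFinset _
  have h1 : ev φ j (u * w) = ∑ ψ ∈ S, mt K φ ψ * (ψ u / ψ 1) * ev ψ j w := by
    unfold ev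
    rw [finsum_eq_sum_of_fintype]
    have e1 : ∀ x : G, j x * φ (u * w * x) =
        ∑ ψ ∈ S, mt K φ ψ * (ψ u / ψ 1) * (j x * ψ (w * x)) := by
      intro x
      by_cases hx : x ∈ K
      · rw [hres (u * w * x) (K.mul_mem (K.mul_mem huK hw) hx),
          finsum_mem_eq_finite_toFinset_sum _ (hB2 G K).1, Finset.mul_sum]
        refine Finset.sum_congr rfl fun ψ hψ => ?_
        have hψ' := (hSm ψ).mp hψ
        obtain ⟨⟨n, hn, h1n, _⟩, _⟩ := (hB2 G K).2 ψ hψ'
        have hne : ψ 1 ≠ 0 := by rw [h1n]; exact_mod_cast hn.ne'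
        have h2 := (hQCE G K u huK hCen ψ hψ').1 (w * x)
        have h3 : ψ (u * w * x) = ψ u / ψ 1 * ψ (w * x) := by
          rw [mul_assoc u w x]
          field_simp
          linear_combination h2
        rw [h3]
        ring
      · rw [hj x hx, zero_mul]
        refine (Finset.sum_eq_zero fun ψ _ => ?_).symm
        rw [zero_mul, mul_zero]
    rw [Finset.sum_congr rfl fun x _ => e1 x, Finset.sum_comm]
    refine Finset.sum_congr rfl fun ψ _ => ?_
    rw [← Finset.mul_sum, finsum_eq_sum_of_fintype]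
  have hBlsub : Bl M K θ ⊆ IrrOn K := fun ψ hψ => hψ.1
  have h2 : ∀ ψ ∈ IrrOn K, ψ ∉ Bl M K θ → ev ψ j w = 0 := by
    intro ψ hψ hn
    obtain ⟨hCF, hcc, _⟩ := hIDM G K (Bl M K θ) hBlsub
    have h3 := ((hEVM G K ψ hψ (eS K (Bl M K θ)) hCF w hw).1 j hj).2
    rw [hcc ψ hψ, if_neg hn, zero_mul] at h3
    have h4 : cv j (eS K (Bl M K θ)) = j := hjh
    rw [h4] at h3
    exact h3
  rw [h1]
  unfold dd
  have hfinB : (Bl M K θ).Finite := (hB2 G K).1.subset hBlsub
  rw [finsum_mem_eq_finite_toFinset_sum _ hfinB, Finset.mul_sum]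
  have hsub : hfinB.toFinset ⊆ S := by
    intro ψ hψ
    rw [Set.Finite.mem_toFinset] at hψ
    exact (hSm ψ).mpr (hBlsub hψ)
  rw [← Finset.sum_subset hsub]
  · refine Finset.sum_congr rfl fun ψ hψ => ?_
    rw [Set.Finite.mem_toFinset] at hψ
    rw [hc ψ hψ]
    ring
  · intro ψ hψ hn
    rw [h2 ψ ((hSm ψ).mp hψ) (fun h => hn (by rw [Set.Finite.mem_toFinset]; exact h)), mul_zero]

end Pool.Agent.FI3
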