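import Pool.Agent.helper1.FI3.SpecH
import Pool.Agent.helper9.GR.PPT

/-!
# Project fi3 (MP_baa4d7_al), block H3, row TRW
-/

set_option autoImplicit false

namespace Pool.Agent.FI3

open Pool.Agent.helper58.DC Pool.Agent.DI Pool.Agent.GR Pool.Agent.OB Pool.Agent.DR Pool.Agent.FI

theorem TRW_dec {p : ℕ} (hp : p.Prime) {G : Type} [Group G] [Finite G] (g : G) :
    ∃ e f : ℕ, g ^ e * g ^ f = g ∧ PEl p (g ^ e) ∧ PReg p (g ^ f) := by
  set n := orderOf g with hn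
  have hn0 : n ≠ 0 := (orderOf_pos g).ne'
  obtain ⟨e, f, h1, h2, h3⟩ := PPT_ex (n := n) hp hn0
  set b := n / p ^ n.factorization p with hb
  have hab : p ^ n.factorization p * b = n := Nat.ordProj_mul_ordCompl_eq_self n p
  have hpb : ¬ p ∣ b := Nat.not_dvd_ordCompl hp hn0
  have hbe : b ∣ e := (Nat.modEq_zero_iff_dvd).mp
    (h2 b ⟨p ^ n.factorization p, by rw [mul_comm]; exact hab.symm⟩ hpb).1
  have haf : p ^ n.factorization p ∣ f := (Nat.modEq_zero_iff_dvd).mp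
    (h1 _ ⟨b, hab.symm⟩ ⟨_, dvd_rfl⟩).2
  refine ⟨e, f, ?_, ⟨n.factorization p, ?_⟩, ?_⟩
  · rw [← pow_add]
    conv_rhs => rw [← pow_one g]
    exact pow_eq_pow_iff_modEq.mpr h3
  · rw [← pow_mul, ← orderOf_dvd_iff_pow_eq_one, ← hn]
    calc n = b * p ^ n.factorization p := by rw [mul_comm]; exact hab.symm
      _ ∣ e * p ^ n.factorization p := Nat.mul_dvd_mul_right hbe _
  · intro hd
    have : orderOf (g ^ f) ∣ b := by
      rw [orderOf_dvd_iff_pow_eq_one, ← pow_mul, ← orderOf_dvd_iff_pow_eq_one, ← hn]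
      calc n = p ^ n.factorization p * b := hab.symm
        _ ∣ f * b := Nat.mul_dvd_mul_right haf _
    exact hpb (hd.trans this)

theorem TRW_key (hKYG : KYG_stmt) (hZEA : ZEA_stmt) (p : ℕ) (M : Ideal (integralClosure ℤ ℂ))
    (hM : Setup p M) (G : Type) [Group G] [Finite G] (H : Subgroup G) (i : G → ℂ)
    (hi : Idm M H i) (w : G) (hw : w ∈ H) (hwr : PReg p w) (hwi : ∀ x, i (w * x * w⁻¹) = i x)
    (g : G) (hg : g ∈ H) (hng : ¬ PReg p g) :
    ∑ᶠ z ∈ (H : Set G), i (z⁻¹ * g * z * w⁻¹) = 0 := by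
  obtain ⟨e, f, hef, hpe, hrf⟩ := TRW_dec hM.pr g⁻¹
  have hgi : g⁻¹ ∈ H := H.inv_mem hg
  have hcomm : Commute (g⁻¹ ^ e) (g⁻¹ ^ f) := (Commute.refl g⁻¹).pow_pow e f
  have hy1 : g⁻¹ ^ e ≠ 1 := by
    intro h
    rw [h, one_mul] at hef
    apply hng
    have h1 : PReg p g⁻¹ := by
      rw [← hef]
      exact hrf
    unfold PReg at h1 ⊢
    rwa [orderOf_inv] at h1
  have hwr' : PReg p w⁻¹ := by
    unfold PReg
    rw [orderOf_inv]
    exact hwr
  have hinvg : (g⁻¹ ^ e * g⁻¹ ^ f)⁻¹ = g := by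
    rw [hef, inv_inv]
  refine hZEA p M hM _ fun r => ?_
  have key := hKYG p M hM G H i hi.sup hi.int hi.idem (g⁻¹ ^ e) (H.pow_mem hgi _) (g⁻¹ ^ f)
    (H.pow_mem hgi _) 1 H.one_mem w⁻¹ (H.inv_mem hw) hpe ⟨0, by simp⟩ hrf hwr' hcomm
    (Commute.one_left _) (fun x => by
      have h1 : 1 * w⁻¹ * x * (1 * w⁻¹)⁻¹ = w⁻¹ * x * w := by group
      rw [h1, ← hwi (w⁻¹ * x * w)]
      congr 1
      group) (fun z _ w' _ h _ => by
      exfalso
      apply hy1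
      calc g⁻¹ ^ e = z * (z⁻¹ * g⁻¹ ^ e * z) * z⁻¹ := by group
        _ = 1 := by rw [h]; group) r
  rw [hinvg] at key
  simp only [one_mul] at key
  exact key

theorem TRW (hKYG : KYG_stmt) (hZEA : ZEA_stmt) : TRW_stmt := by
  intro p M hM G _ _ H i hi w hw hwr hwi ψ ψ' hψ hψ' hv
  classical
  haveI := Fintype.ofFinite G
  have hS := Set.toFinite (H : Set G)
  have hmem : ∀ h, h ∈ hS.toFinset ↔ h ∈ H := fun h => by rw [Set.Finite.mem_toFinset]; rfl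
  have h1 : ∀ g, ∑ z ∈ hS.toFinset, i (z⁻¹ * g * z * w⁻¹) * (ψ g - ψ' g) = 0 := by
    intro g
    by_cases hg : g ∈ H
    · by_cases hr : PReg p g
      · refine Finset.sum_eq_zero fun h _ => ?_
        rw [hv g hg hr, sub_self, mul_zero]
      · rw [← Finset.sum_mul, ← finsum_mem_eq_finite_toFinset_sum _ hS,
          TRW_key hKYG hZEA p M hM G H i hi w hw hwr hwi g hg hr, zero_mul]
    · refine Finset.sum_eq_zero fun z hz => ?_
      have hH : z ∈ H := (hmem z).1 hz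
      have h0 : z⁻¹ * g * z * w⁻¹ ∉ H := by
        intro h2
        apply hg
        have h3 : g = z * (z⁻¹ * g * z * w⁻¹ * w) * z⁻¹ := by group
        rw [h3]
        exact H.mul_mem (H.mul_mem hH (H.mul_mem h2 hw)) (H.inv_mem hH)
      rw [hi.sup _ h0, zero_mul]
  have h2 : ∀ z ∈ hS.toFinset, ∑ g, i (z⁻¹ * g * z * w⁻¹) * (ψ g - ψ' g) =
      ∑ x, i x * (ψ (w * x) - ψ' (w * x)) := by
    intro z hz
    have hH : z ∈ H := (hmem z).1 hz
    rw [← Equiv.sum_comp ((MulAut.conj z⁻¹).toEquiv.trans (Equiv.mulLeft w⁻¹))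
      (fun x => i x * (ψ (w * x) - ψ' (w * x)))]
    refine Finset.sum_congr rfl fun g _ => ?_
    have e1 : ((MulAut.conj z⁻¹).toEquiv.trans (Equiv.mulLeft w⁻¹)) g = w⁻¹ * (z⁻¹ * g * z) := by
      change w⁻¹ * (z⁻¹ * g * z⁻¹⁻¹) = _
      rw [inv_inv]
    have e2 : i (w⁻¹ * (z⁻¹ * g * z)) = i (z⁻¹ * g * z * w⁻¹) := by
      rw [← hwi (w⁻¹ * (z⁻¹ * g * z))]
      congr 1
      group
    have e3 : ψ (w * (w⁻¹ * (z⁻¹ * g * z))) = ψ g := by
      rw [mul_inv_cancel_left]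
      have := hψ z⁻¹ (H.inv_mem hH) g
      rwa [inv_inv] at this
    have e4 : ψ' (w * (w⁻¹ * (z⁻¹ * g * z))) = ψ' g := by
      rw [mul_inv_cancel_left]
      have := hψ' z⁻¹ (H.inv_mem hH) g
      rwa [inv_inv] at this
    rw [e1, e2, e3, e4]
  have h3 : (hS.toFinset.card : ℂ) * ∑ x, i x * (ψ (w * x) - ψ' (w * x)) = 0 := by
    calc (hS.toFinset.card : ℂ) * ∑ x, i x * (ψ (w * x) - ψ' (w * x))
        = ∑ z ∈ hS.toFinset, ∑ g, i (z⁻¹ * g * z * w⁻¹) * (ψ g - ψ' g) := by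
          rw [Finset.sum_congr rfl h2, Finset.sum_const, nsmul_eq_mul]
      _ = ∑ g, ∑ z ∈ hS.toFinset, i (z⁻¹ * g * z * w⁻¹) * (ψ g - ψ' g) := Finset.sum_comm
      _ = 0 := Finset.sum_eq_zero fun x _ => h1 x
  have h4 : ∑ x, i x * (ψ (w * x) - ψ' (w * x)) = 0 := by
    rcases mul_eq_zero.1 h3 with h | h
    · exfalso
      have h5 : hS.toFinset.card = 0 := by exact_mod_cast h
      rw [Finset.card_eq_zero] at h5
      have h6 : (1 : G) ∈ hS.toFinset := (hmem 1).2 H.one_mem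
      rw [h5] at h6
      exact absurd h6 (Finset.notMem_empty _)
    · exact h
  have e : ∀ φ : G → ℂ, ev φ i w = ∑ x, i x * φ (w * x) := by
    intro φ
    rw [ev, finsum_eq_sum_of_fintype]
  rw [e, e, ← sub_eq_zero, ← Finset.sum_sub_distrib, ← h4]
  exact Finset.sum_congr rfl fun x _ => by ring

end Pool.Agent.FI3
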