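import Pool.Agent.helper22.FI3.SpecCQ

/-!
# Project fi3 (MP_baa4d7_al), block CQ, row JCO
-/

set_option autoImplicit false

namespace Pool.Agent.FI3

open Pool.Agent.helper58.DC Pool.Agent.DI Pool.Agent.GR Pool.Agent.OB Pool.Agent.DR Pool.Agent.FI

theorem JCO : JCO_stmt := by
  intro p _ G Gb _ _ _ _ L Z D π hQ hDL hab c hc z₀ hz₀ hz
  have hcomm : ∀ a ∈ (D.subgroupOf L).map π, ∀ b ∈ (D.subgroupOf L).map π, a * b = b * a := by
    rintro _ ⟨a, ha, rfl⟩ _ ⟨b, hb, rfl⟩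
    have h1 : a * b = b * a := by
      apply Subtype.ext
      exact hab _ (Subgroup.mem_subgroupOf.1 ha) _ (Subgroup.mem_subgroupOf.1 hb)
    rw [← map_mul, ← map_mul, h1]
  have hm : π ⟨z₀, hDL hz₀⟩ ∈ (D.subgroupOf L).map π :=
    ⟨⟨z₀, hDL hz₀⟩, Subgroup.mem_subgroupOf.2 hz₀, rfl⟩
  refine ⟨hc, π ⟨z₀, hDL hz₀⟩, hm, fun d hd => hcomm _ hm d hd, ?_⟩
  have hbot : ⁅(D.subgroupOf L).map π, (D.subgroupOf L).map π⁆ = ⊥ := by
    rw [Subgroup.commutator_eq_bot_iff_le_centralizer]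
    intro a ha
    rw [Subgroup.mem_centralizer_iff]
    intro b hb
    exact hcomm b hb a ha
  rw [hbot, Subgroup.mem_bot, ← map_pow, hQ.ker]
  exact hz

end Pool.Agent.FI3
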